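import Mathlib

/-! # Weil abscissa over `F[t]` -/

set_option autoImplicit false

namespace Pool.Agent.helper22.WF

open Polynomial Finset

open Classical in
/-- The largest divisor of `n` all of whose prime factors lie in `S`. -/
noncomputable def sPart (S : Set ℕ) (n : ℕ) : ℕ :=
  ∏ p ∈ n.primeFactors.filter (· ∈ S), p ^ n.factorization p

theorem sPart_dvd (S : Set ℕ) {n : ℕ} (hn : n ≠ 0) : sPart S n ∣ n := by
  classical
  conv_rhs => rw [← Nat.prod_factorization_pow_eq_self hn]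
  unfold sPart
  rw [Finsupp.prod, Nat.support_factorization]
  exact Finset.prod_dvd_prod_of_subset _ _ _ (Finset.filter_subset _ _)

theorem mem_of_dvd_sPart (S : Set ℕ) {n p : ℕ} (hp : p.Prime) (h : p ∣ sPart S n) : p ∈ S := by
  classical
  unfold sPart at h
  obtain ⟨q, hq, hpq⟩ := (hp.prime.dvd_finsetProd_iff _).1 h
  rw [Finset.mem_filter] at hq
  have h1 := hp.dvd_of_dvd_pow hpq
  rw [(Nat.prime_dvd_prime_iff_eq hp (Nat.prime_of_mem_primeFactors hq.1)).1 h1]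
  exact hq.2

theorem coprime_of {D m : ℕ} (h : ∀ p : ℕ, p.Prime → p ∣ D → ¬ p ∣ m) : D.Coprime m :=
  Nat.Coprime.symm (Nat.coprime_of_dvd fun p hp h1 h2 => h p hp h2 h1)

/-- a prime `2 mod 3` does not divide `y² + y + 1` -/
theorem not_dvd_cyc3 {p y : ℕ} (hp : p.Prime) (h3 : p % 3 = 2) : ¬ p ∣ y ^ 2 + y + 1 := by
  intro h
  have := Fact.mk hp
  have h1 : ((y : ZMod p)) ^ 2 + y + 1 = 0 := by
    have := (ZMod.natCast_eq_zero_iff (y ^ 2 + y + 1) p).2 h
    push_cast at this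
    exact this
  have hy0 : (y : ZMod p) ≠ 0 := by
    intro h0
    rw [h0] at h1
    simp at h1
  have h2 : (y : ZMod p) ^ 3 = 1 := by
    have : (y : ZMod p) ^ 3 - 1 = ((y : ZMod p) - 1) * ((y : ZMod p) ^ 2 + y + 1) := by ring
    rw [h1, mul_zero] at this
    exact sub_eq_zero.1 this
  have h4 : (y : ZMod p) ^ (p - 1) = 1 := ZMod.pow_card_sub_one_eq_one hy0
  have h5 : (p - 1) % 3 = 1 := by omega
  have h6 : (y : ZMod p) = 1 := by
    have h7 : (y : ZMod p) ^ (p - 1) = y := by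
      conv_lhs => rw [← Nat.div_add_mod (p - 1) 3, h5, pow_add, pow_mul, h2, one_pow, one_mul,
        pow_one]
    rw [← h7, h4]
  rw [h6] at h1
  have h7 : ((3 : ℕ) : ZMod p) = 0 := by
    push_cast
    rw [← h1]; ring
  have h8 : p ∣ 3 := (ZMod.natCast_eq_zero_iff 3 p).1 h7
  have h9 := (Nat.prime_dvd_prime_iff_eq hp Nat.prime_three).1 h8
  omega

/-- a prime `3 mod 4` does not divide `z² + 1` -/
theorem not_dvd_sq {p z : ℕ} (hp : p.Prime) (h3 : p % 4 = 3) : ¬ p ∣ z ^ 2 + 1 := by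
  intro h
  have := Fact.mk hp
  have h1 : ((z : ZMod p)) ^ 2 = -1 := by
    have := (ZMod.natCast_eq_zero_iff (z ^ 2 + 1) p).2 h
    push_cast at this
    exact eq_neg_of_add_eq_zero_left this
  exact (ZMod.mod_four_ne_three_of_sq_eq_neg_one h1) h3

theorem descend3 {D r n : ℕ} (hr : 1 ≤ r) (hD : ∀ p : ℕ, p.Prime → p ∣ D → p % 3 = 2) :
    ∀ k : ℕ, D ∣ r ^ (3 ^ k * n) - 1 → D ∣ r ^ n - 1 := by
  intro k
  induction k with
  | zero => intro h; simpa using h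
  | succ k ih =>
    intro h
    apply ih
    set y := r ^ (3 ^ k * n) with hy
    have hy1 : 1 ≤ y := Nat.one_le_pow _ _ hr
    have e1 : r ^ (3 ^ (k + 1) * n) = y ^ 3 := by rw [hy, ← pow_mul]; congr 1; ring
    have e2 : y ^ 3 - 1 = (y - 1) * (y ^ 2 + y + 1) := by
      obtain ⟨w, hw⟩ := Nat.exists_eq_add_of_le hy1
      rw [hw]
      have : (1 + w) ^ 3 = (1 + w - 1) * ((1 + w) ^ 2 + (1 + w) + 1) + 1 := by
        rw [Nat.add_sub_cancel_left]; ring
      omega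
    rw [e1, e2] at h
    exact (coprime_of fun p hp hpD => not_dvd_cyc3 hp (hD p hp hpD)).dvd_of_dvd_mul_right h

theorem descend4 {D r n : ℕ} (hr : 1 ≤ r) (hD : ∀ p : ℕ, p.Prime → p ∣ D → p % 4 = 3) :
    ∀ k : ℕ, D ∣ r ^ (2 ^ (k + 1) * n) - 1 → D ∣ r ^ (2 * n) - 1 := by
  intro k
  induction k with
  | zero => intro h; simpa using h
  | succ k ih =>
    intro h
    apply ih
    set z := r ^ (2 ^ k * n) with hz
    have hz1 : 1 ≤ z := Nat.one_le_pow _ _ hr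
    have e1 : r ^ (2 ^ (k + 1 + 1) * n) = (z ^ 2) ^ 2 := by
      rw [hz, ← pow_mul, ← pow_mul]; congr 1; ring
    have e3 : r ^ (2 ^ (k + 1) * n) = z ^ 2 := by rw [hz, ← pow_mul]; congr 1; ring
    have hzz : 1 ≤ z ^ 2 := Nat.one_le_pow _ _ hz1
    have e2 : (z ^ 2) ^ 2 - 1 = (z ^ 2 - 1) * (z ^ 2 + 1) := by
      obtain ⟨w, hw⟩ := Nat.exists_eq_add_of_le hzz
      rw [hw]
      have : (1 + w) ^ 2 = (1 + w - 1) * ((1 + w) + 1) + 1 := by
        rw [Nat.add_sub_cancel_left]; ring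
      omega
    rw [e1, e2] at h
    rw [e3]
    exact (coprime_of fun p hp hpD => not_dvd_sq hp (hD p hp hpD)).dvd_of_dvd_mul_right h

/-- The sum over the monic polynomials of positive degree. -/
theorem summable_monic (F : Type) [Field F] [Fintype F] {σ : ℝ} (hσ : 1 < σ) :
    Summable (fun P : {P : F[X] // P.Monic ∧ Irreducible P} =>
      (Fintype.card F : ℝ) ^ (-(σ * (P.1.natDegree : ℝ)))) := by
  classical
  set Q : ℝ := (Fintype.card F : ℝ) with hQ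
  have hQ1 : 1 < Q := by
    rw [hQ]; exact_mod_cast Fintype.one_lt_card
  have hQ0 : 0 < Q := by linarith
  set ρ : ℝ := Q ^ (1 - σ) with hρ
  have hρ0 : 0 < ρ := Real.rpow_pos_of_pos hQ0 _
  have hρ1 : ρ < 1 := Real.rpow_lt_one_of_one_lt_of_neg hQ1 (by linarith)
  refine summable_of_sum_le (c := Q * (1 - ρ)⁻¹) (fun P => (Real.rpow_pos_of_pos hQ0 _).le) ?_
  intro u
  set N := u.sup (fun P => P.1.natDegree) with hN
  have h1 : ∑ P ∈ u, Q ^ (-(σ * (P.1.natDegree : ℝ))) =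
      ∑ d ∈ Finset.range (N + 1), ∑ P ∈ u.filter (fun P => P.1.natDegree = d),
        Q ^ (-(σ * (P.1.natDegree : ℝ))) := by
    rw [Finset.sum_fiberwise_of_maps_to]
    intro P hP
    rw [Finset.mem_range, Nat.lt_succ_iff]
    exact Finset.le_sup (f := fun P : {P : F[X] // P.Monic ∧ Irreducible P} => P.1.natDegree) hP
  rw [h1]
  have h2 : ∀ d : ℕ, (((u.filter (fun P => P.1.natDegree = d)).card : ℕ) : ℝ) ≤ Q ^ (d + 1) := by
    intro d
    have h3 : (u.filter (fun P => P.1.natDegree = d)).card ≤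
        Fintype.card (Fin (d + 1) → F) := by
      rw [← Finset.card_univ]
      refine Finset.card_le_card_of_injOn (fun P => fun i : Fin (d + 1) => P.1.coeff i)
        (fun _ _ => Finset.mem_coe.2 (Finset.mem_univ _)) ?_
      intro P hP P' hP' h
      rw [Finset.mem_coe, Finset.mem_filter] at hP hP'
      apply Subtype.ext
      ext i
      by_cases hi : i < d + 1
      · exact congrFun h ⟨i, hi⟩
      · rw [coeff_eq_zero_of_natDegree_lt (by omega), coeff_eq_zero_of_natDegree_lt (by omega)]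
    rw [Fintype.card_fun, Fintype.card_fin] at h3
    rw [hQ]
    exact_mod_cast h3
  have h3 : ∀ d : ℕ, ∑ P ∈ u.filter (fun P => P.1.natDegree = d),
      Q ^ (-(σ * (P.1.natDegree : ℝ))) ≤ Q * ρ ^ d := by
    intro d
    have h4 : ∑ P ∈ u.filter (fun P => P.1.natDegree = d), Q ^ (-(σ * (P.1.natDegree : ℝ))) =
        ∑ _P ∈ u.filter (fun P => P.1.natDegree = d), Q ^ (-(σ * (d : ℝ))) := by
      refine Finset.sum_congr rfl fun P hP => ?_
      rw [(Finset.mem_filter.1 hP).2]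
    rw [h4, Finset.sum_const, nsmul_eq_mul]
    calc (((u.filter (fun P => P.1.natDegree = d)).card : ℕ) : ℝ) * Q ^ (-(σ * (d : ℝ))) ≤
          Q ^ (d + 1) * Q ^ (-(σ * (d : ℝ))) :=
          mul_le_mul_of_nonneg_right (h2 d) (Real.rpow_pos_of_pos hQ0 _).le
      _ = Q * ρ ^ d := by
          rw [hρ, ← Real.rpow_natCast (Q ^ (1 - σ)), ← Real.rpow_mul hQ0.le, pow_succ, mul_comm (Q ^ d) Q,
            mul_assoc, ← Real.rpow_natCast Q d, ← Real.rpow_add hQ0]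
          congr 2
          ring
  calc ∑ d ∈ Finset.range (N + 1), ∑ P ∈ u.filter (fun P => P.1.natDegree = d),
        Q ^ (-(σ * (P.1.natDegree : ℝ))) ≤ ∑ d ∈ Finset.range (N + 1), Q * ρ ^ d :=
        Finset.sum_le_sum fun d _ => h3 d
    _ = Q * ∑ d ∈ Finset.range (N + 1), ρ ^ d := by rw [Finset.mul_sum]
    _ ≤ Q * (1 - ρ)⁻¹ := by
        apply mul_le_mul_of_nonneg_left _ hQ0.le
        rw [← tsum_geometric_of_lt_one hρ0.le hρ1]
        exact (summable_geometric_of_lt_one hρ0.le hρ1).sum_le_tsum _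
          (fun d _ => (pow_pos hρ0 d).le)

theorem summ (F : Type) [Field F] [Fintype F] (S : Set ℕ) {θ s : ℝ}
    (hb : ∀ n : ℕ, 1 ≤ n → (sPart S (Fintype.card F ^ n - 1) : ℝ) ≤
      (Fintype.card F : ℝ) ^ (θ * (n : ℝ))) (hs : 1 + θ < s) :
    Summable (fun x : {P : F[X] // P.Monic ∧ Irreducible P} × ℕ =>
      (sPart S (Fintype.card F ^ (x.1.1.natDegree * (x.2 + 1)) - 1) : ℝ) /
        (((x.2 : ℝ) + 1) *
          (Fintype.card F : ℝ) ^ (s * ((x.1.1.natDegree : ℝ) * ((x.2 : ℝ) + 1))))) := by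
  set Q : ℝ := (Fintype.card F : ℝ) with hQ
  have hQ2 : 2 ≤ Q := by
    rw [hQ]; exact_mod_cast Fintype.one_lt_card
  have hQ0 : 0 < Q := by linarith
  have hg : Summable (fun j : ℕ => ((1 : ℝ) / 2) ^ j) :=
    summable_geometric_of_lt_one (by norm_num) (by norm_num)
  have hm := (summable_monic F (σ := s - θ) (by linarith)).mul_of_nonneg hg
    (fun P => (Real.rpow_pos_of_pos hQ0 _).le) (fun j => by positivity)
  refine Summable.of_nonneg_of_le (fun x => by positivity) ?_ hm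
  rintro ⟨⟨P, hPm, hPi⟩, j⟩
  simp only
  set d : ℕ := P.natDegree with hd
  have hd1 : 1 ≤ d := hPi.natDegree_pos
  have hd1' : (1 : ℝ) ≤ d := by exact_mod_cast hd1
  have h1 := hb (d * (j + 1)) (Nat.mul_pos hd1 (Nat.succ_pos j))
  rw [Nat.cast_mul, Nat.cast_add, Nat.cast_one] at h1
  set a : ℝ := (d : ℝ) * ((j : ℝ) + 1) with ha
  have hj : (1 : ℝ) ≤ (j : ℝ) + 1 := by
    have : (0 : ℝ) ≤ j := Nat.cast_nonneg j
    linarith
  have hden : 0 < Q ^ (s * a) := Real.rpow_pos_of_pos hQ0 _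
  have h2 : (sPart S (Fintype.card F ^ (d * (j + 1)) - 1) : ℝ) / (((j : ℝ) + 1) * Q ^ (s * a)) ≤
      Q ^ (-((s - θ) * a)) := by
    rw [div_le_iff₀ (by positivity)]
    have h3 : Q ^ (-((s - θ) * a)) * (((j : ℝ) + 1) * Q ^ (s * a)) =
        ((j : ℝ) + 1) * Q ^ (θ * a) := by
      rw [mul_left_comm, ← Real.rpow_add hQ0]
      congr 2
      ring
    rw [h3]
    have h4 : 0 < Q ^ (θ * a) := Real.rpow_pos_of_pos hQ0 _
    nlinarith
  refine h2.trans ?_
  have h3 : Q ^ (-((s - θ) * a)) =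
      Q ^ (-((s - θ) * (d : ℝ))) * (Q ^ (-((s - θ) * (d : ℝ)))) ^ j := by
    rw [← Real.rpow_natCast (Q ^ (-((s - θ) * (d : ℝ)))) j, ← Real.rpow_mul hQ0.le,
      ← Real.rpow_add hQ0]
    congr 1
    rw [ha]; ring
  rw [h3]
  apply mul_le_mul_of_nonneg_left _ (Real.rpow_pos_of_pos hQ0 _).le
  apply pow_le_pow_left₀ (Real.rpow_pos_of_pos hQ0 _).le
  calc Q ^ (-((s - θ) * (d : ℝ))) ≤ Q ^ (-(1 : ℝ)) := by
        apply Real.rpow_le_rpow_of_exponent_le (by linarith)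
        nlinarith
    _ = 1 / Q := by rw [Real.rpow_neg_one, one_div]
    _ ≤ 1 / 2 := one_div_le_one_div_of_le (by norm_num) hQ2

theorem bound3 {q r k : ℕ} (hq : 2 ≤ q) (hqr : q = r ^ 3 ^ k) (n : ℕ) (hn : 1 ≤ n) :
    (sPart {p | p % 3 = 2} (q ^ n - 1) : ℝ) ≤ (q : ℝ) ^ (1 / (3 : ℝ) ^ k * (n : ℝ)) := by
  have hr : 2 ≤ r := by
    rcases Nat.lt_or_ge r 2 with h | h
    · interval_cases r
      · rw [zero_pow (by positivity)] at hqr; omega
      · rw [one_pow] at hqr; omega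
    · exact h
  have hqn : 2 ≤ q ^ n := hq.trans (Nat.le_self_pow (by omega) q)
  have h1 : sPart {p | p % 3 = 2} (q ^ n - 1) ∣ r ^ (3 ^ k * n) - 1 := by
    rw [pow_mul, ← hqr]; exact sPart_dvd _ (by omega)
  have h2 := descend3 (by omega : 1 ≤ r)
    (fun p hp h => (mem_of_dvd_sPart {p : ℕ | p % 3 = 2} hp h : p ∈ {p : ℕ | p % 3 = 2})) k h1
  have hrn : 2 ≤ r ^ n := hr.trans (Nat.le_self_pow (by omega) r)
  have h3 : sPart {p | p % 3 = 2} (q ^ n - 1) ≤ r ^ n :=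
    (Nat.le_of_dvd (by omega) h2).trans (Nat.sub_le _ _)
  have h4 : (q : ℝ) ^ (1 / (3 : ℝ) ^ k * (n : ℝ)) = ((r ^ n : ℕ) : ℝ) := by
    rw [hqr]
    push_cast
    rw [← Real.rpow_natCast (r : ℝ) (3 ^ k), ← Real.rpow_mul (Nat.cast_nonneg r)]
    rw [← Real.rpow_natCast (r : ℝ) n]
    congr 1
    push_cast
    field_simp
  rw [h4]
  exact_mod_cast h3

theorem bound4 {q r k : ℕ} (hq : 2 ≤ q) (hqr : q = r ^ 2 ^ (k + 1)) (n : ℕ) (hn : 1 ≤ n) :
    (sPart {p | p % 4 = 3} (q ^ n - 1) : ℝ) ≤ (q : ℝ) ^ (1 / (2 : ℝ) ^ k * (n : ℝ)) := by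
  have hr : 2 ≤ r := by
    rcases Nat.lt_or_ge r 2 with h | h
    · interval_cases r
      · rw [zero_pow (by positivity)] at hqr; omega
      · rw [one_pow] at hqr; omega
    · exact h
  have hqn : 2 ≤ q ^ n := hq.trans (Nat.le_self_pow (by omega) q)
  have h1 : sPart {p | p % 4 = 3} (q ^ n - 1) ∣ r ^ (2 ^ (k + 1) * n) - 1 := by
    rw [pow_mul, ← hqr]; exact sPart_dvd _ (by omega)
  have h2 := descend4 (by omega : 1 ≤ r)
    (fun p hp h => (mem_of_dvd_sPart {p : ℕ | p % 4 = 3} hp h : p ∈ {p : ℕ | p % 4 = 3})) k h1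
  have hrn : 2 ≤ r ^ (2 * n) := hr.trans (Nat.le_self_pow (by omega) r)
  have h3 : sPart {p | p % 4 = 3} (q ^ n - 1) ≤ r ^ (2 * n) :=
    (Nat.le_of_dvd (by omega) h2).trans (Nat.sub_le _ _)
  have h4 : (q : ℝ) ^ (1 / (2 : ℝ) ^ k * (n : ℝ)) = ((r ^ (2 * n) : ℕ) : ℝ) := by
    rw [hqr]
    push_cast
    rw [← Real.rpow_natCast (r : ℝ) (2 ^ (k + 1)), ← Real.rpow_mul (Nat.cast_nonneg r)]
    rw [← Real.rpow_natCast (r : ℝ) (2 * n)]
    congr 1
    push_cast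
    field_simp
    ring
  rw [h4]
  exact_mod_cast h3

end Pool.Agent.helper22.WF
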